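import Mathlib

/-!
Linear algebra for the theorem on complements of very general hypersurfaces (`MP_70ba79_ag`):
step (C) of the note of helper17.
-/

set_option autoImplicit false

open Module

namespace Pool.Agent.H92.VGH

section

variable {K V E N : Type*} [Field K] [AddCommGroup V] [Module K V]
  [AddCommGroup E] [Module K E] [AddCommGroup N] [Module K N]

/-- The sum of the images of the maps `B (·) (Q i)`. -/
def US {j : ℕ} (B : V →ₗ[K] E →ₗ[K] N) (Q : Fin j → E) : Submodule K N :=
  Submodule.span K {z | ∃ v i, z = B v (Q i)}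

lemma mem_US {j : ℕ} (B : V →ₗ[K] E →ₗ[K] N) (Q : Fin j → E) (v : V) (i : Fin j) :
    B v (Q i) ∈ US B Q := Submodule.subset_span ⟨v, i, rfl⟩

lemma US_le {j : ℕ} {B : V →ₗ[K] E →ₗ[K] N} {Q : Fin j → E} {U : Submodule K N}
    (h : ∀ v i, B v (Q i) ∈ U) : US B Q ≤ U := by
  apply Submodule.span_le.2
  rintro _ ⟨v, i, rfl⟩
  exact h v i

lemma US_snoc_left {j : ℕ} (B : V →ₗ[K] E →ₗ[K] N) (Q : Fin j → E) (R : E) :
    US B Q ≤ US B (Fin.snoc Q R : Fin (j + 1) → E) := by
  apply US_le
  intro v i
  have h := mem_US B (Fin.snoc Q R : Fin (j + 1) → E) v i.castSucc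
  rwa [Fin.snoc_castSucc] at h

lemma mem_US_snoc_last {j : ℕ} (B : V →ₗ[K] E →ₗ[K] N) (Q : Fin j → E) (R : E) (v : V) :
    B v R ∈ US B (Fin.snoc Q R : Fin (j + 1) → E) := by
  have h := mem_US B (Fin.snoc Q R : Fin (j + 1) → E) v (Fin.last j)
  rwa [Fin.snoc_last] at h

/-- Rank at most one for all members of a linear family: the image lines. -/
lemma rank_one_aux (T : V →ₗ[K] E →ₗ[K] N)
    (h1 : ∀ (R : E) (v w : V), ∃ s t : K, (s ≠ 0 ∨ t ≠ 0) ∧ s • T v R + t • T w R = 0)
    {R₁ : E} {v₁ h : V} (hv : T v₁ R₁ ≠ 0) (hh : T h R₁ = 0) (R : E) :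
    ∃ c : K, T h R = c • T v₁ R₁ := by
  by_cases h0 : T h R = 0
  · exact ⟨0, by rw [h0, zero_smul]⟩
  obtain ⟨s, t, hst, he⟩ := h1 R v₁ h
  have hs : s ≠ 0 := by
    rintro rfl
    rw [zero_smul, zero_add] at he
    rcases smul_eq_zero.1 he with h2 | h2
    · rcases hst with h3 | h3
      · exact h3 rfl
      · exact h3 h2
    · exact h0 h2
  have e1 : T v₁ R = (-(s⁻¹ * t)) • T h R := by
    have h2 : s • T v₁ R = (-t) • T h R := by
      rw [neg_smul]
      exact eq_neg_of_add_eq_zero_left he
    have h3 : T v₁ R = s⁻¹ • (s • T v₁ R) := by rw [smul_smul, inv_mul_cancel₀ hs, one_smul]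
    rw [h3, h2, smul_smul]
    congr 1
    ring
  obtain ⟨s', t', hst', he'⟩ := h1 (R₁ + R) v₁ h
  rw [map_add, map_add, hh, zero_add, e1] at he'
  have hs' : s' ≠ 0 := by
    rintro rfl
    rw [zero_smul, zero_add] at he'
    rcases smul_eq_zero.1 he' with h2 | h2
    · rcases hst' with h3 | h3
      · exact h3 rfl
      · exact h3 h2
    · exact h0 h2
  have e2 : T v₁ R₁ = (s⁻¹ * t - s'⁻¹ * t') • T h R := by
    have h2 : s' • T v₁ R₁ = (s' * (s⁻¹ * t) - t') • T h R := by
      rw [smul_add] at he'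
      rw [sub_smul, mul_smul]
      have h3 : s' • T v₁ R₁ = -(s' • (-(s⁻¹ * t)) • T h R + t' • T h R) := by
        rw [eq_neg_iff_add_eq_zero, ← he']
        abel
      rw [h3, neg_smul, smul_neg]
      abel
    have h3 : T v₁ R₁ = s'⁻¹ • (s' • T v₁ R₁) := by rw [smul_smul, inv_mul_cancel₀ hs', one_smul]
    rw [h3, h2, smul_smul]
    congr 1
    field_simp
  have hb : s⁻¹ * t - s'⁻¹ * t' ≠ 0 := by
    intro h2
    rw [h2, zero_smul] at e2
    exact hv e2
  exact ⟨(s⁻¹ * t - s'⁻¹ * t')⁻¹, by rw [e2, smul_smul, inv_mul_cancel₀ hb, one_smul]⟩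

/-- A linear family of maps of rank at most one whose images are not in a line has a common
kernel of codimension one. -/
lemma common_kernel (T : V →ₗ[K] E →ₗ[K] N)
    (h1 : ∀ (R : E) (v w : V), ∃ s t : K, (s ≠ 0 ∨ t ≠ 0) ∧ s • T v R + t • T w R = 0)
    (h2 : ¬ ∃ m : N, ∀ v R, ∃ c : K, T v R = c • m) :
    ∃ φ : V →ₗ[K] K, φ ≠ 0 ∧ ∀ h, φ h = 0 → ∀ R, T h R = 0 := by
  push Not at h2
  obtain ⟨v₁, R₁, hm⟩ := h2 0
  have hm₁ : T v₁ R₁ ≠ 0 := by
    have := hm 0
    rwa [zero_smul] at this
  obtain ⟨v₂, R₂, hm₂⟩ := h2 (T v₁ R₁)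
  have hm₂0 : T v₂ R₂ ≠ 0 := by
    have := hm₂ 0
    rwa [zero_smul] at this
  -- the two lines are different
  have hne : ∀ c d : K, c • T v₁ R₁ + d • T v₂ R₂ = 0 → c = 0 ∧ d = 0 := by
    intro c d hcd
    have hd : d = 0 := by
      by_contra hd
      apply hm₂ (-(d⁻¹ * c))
      have h3 : d • T v₂ R₂ = -(c • T v₁ R₁) := by
        rw [eq_neg_iff_add_eq_zero, add_comm]
        exact hcd
      have h4 : T v₂ R₂ = d⁻¹ • (d • T v₂ R₂) := by rw [smul_smul, inv_mul_cancel₀ hd, one_smul]
      rw [h4, h3, smul_neg, smul_smul, neg_smul]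
    refine ⟨?_, hd⟩
    rw [hd, zero_smul, add_zero] at hcd
    rcases smul_eq_zero.1 hcd with h3 | h3
    · exact h3
    · exact absurd h3 hm₁
  have k12 : ∀ h, T h R₁ = 0 → T h R₂ = 0 := by
    intro h hh
    obtain ⟨c, hc⟩ := rank_one_aux T h1 hm₁ hh R₂
    obtain ⟨s, t, hst, he⟩ := h1 R₂ h v₂
    rw [hc, smul_smul] at he
    obtain ⟨h3, h4⟩ := hne _ _ he
    have hs : s ≠ 0 := by
      rcases hst with h5 | h5
      · exact h5
      · exact absurd h4 h5
    rcases mul_eq_zero.1 h3 with h5 | h5
    · exact absurd h5 hs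
    · rw [hc, h5, zero_smul]
  obtain ⟨ψ, hψ⟩ : ∃ ψ : N →ₗ[K] K, ψ (T v₁ R₁) ≠ 0 := by
    by_contra hc
    push Not at hc
    exact hm₁ ((Module.forall_dual_apply_eq_zero_iff K _).1 hc)
  refine ⟨ψ ∘ₗ (T.flip R₁), ?_, ?_⟩
  · intro h
    apply hψ
    have := LinearMap.congr_fun h v₁
    simpa using this
  · intro h hφ R
    have hφ' : ψ (T h R₁) = 0 := by simpa using hφ
    have hh : T h R₁ = 0 := by
      obtain ⟨s, t, hst, he⟩ := h1 R₁ h v₁
      have hs : s ≠ 0 := by
        rintro rfl
        rw [zero_smul, zero_add] at he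
        rcases smul_eq_zero.1 he with h3 | h3
        · rcases hst with h4 | h4
          · exact h4 rfl
          · exact h4 h3
        · exact hm₁ h3
      have h3 : ψ (s • T h R₁ + t • T v₁ R₁) = 0 := by rw [he, map_zero]
      rw [map_add, map_smul, map_smul, hφ', smul_zero, zero_add, smul_eq_mul] at h3
      have ht : t = 0 := by
        rcases mul_eq_zero.1 h3 with h4 | h4
        · exact h4
        · exact absurd h4 hψ
      rw [ht, zero_smul, add_zero] at he
      rcases smul_eq_zero.1 he with h4 | h4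
      · exact absurd h4 hs
      · exact h4
    obtain ⟨c₁, hc₁⟩ := rank_one_aux T h1 hm₁ hh R
    obtain ⟨c₂, hc₂⟩ := rank_one_aux T h1 hm₂0 (k12 h hh) R
    have h3 : c₁ • T v₁ R₁ + (-c₂) • T v₂ R₂ = 0 := by
      rw [← hc₁, neg_smul, ← hc₂, add_neg_cancel]
    rw [hc₁, (hne _ _ h3).1, zero_smul]

/-- Openness of linear independence along a line. -/
lemma exists_eps [Infinite K] {ρ : ℕ} (x y : Fin ρ → N) (hx : LinearIndependent K x) :
    ∃ ε : K, ε ≠ 0 ∧ LinearIndependent K (fun a => x a + ε • y a) := by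
  classical
  have hinj : Function.Injective (Fintype.linearCombination K x) :=
    linearIndependent_iff_injective_fintypeLinearCombination.1 hx
  obtain ⟨g, hg⟩ := (Fintype.linearCombination K x).exists_leftInverse_of_injective
    (LinearMap.ker_eq_bot.2 hinj)
  have hgx : ∀ a, g (x a) = Pi.single a 1 := by
    intro a
    have h1 := LinearMap.congr_fun hg (Pi.single a (1 : K))
    simpa [Fintype.linearCombination_apply_single] using h1
  set Y : Matrix (Fin ρ) (Fin ρ) K := Matrix.of fun a b => g (y a) b with hY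
  have hne : (-Y).charpolyRev ≠ 0 := by
    intro h
    have h1 := Matrix.eval_charpolyRev (M := -Y)
    rw [h, Polynomial.eval_zero] at h1
    exact zero_ne_one h1
  obtain ⟨ε, hε⟩ := Infinite.exists_notMem_finset (insert 0 (-Y).charpolyRev.roots.toFinset)
  rw [Finset.mem_insert, not_or, Multiset.mem_toFinset, Polynomial.mem_roots hne] at hε
  refine ⟨ε, hε.1, ?_⟩
  have hdet : (1 + ε • Y).det ≠ 0 := by
    intro h
    apply hε.2
    rw [Polynomial.IsRoot, Matrix.charpolyRev, ← Polynomial.coe_evalRingHom, RingHom.map_det]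
    rw [← h]
    congr 1
    ext i j
    simp only [RingHom.mapMatrix_apply, Matrix.map_apply, Matrix.sub_apply, Matrix.one_apply,
      Matrix.smul_apply, Matrix.add_apply, Matrix.neg_apply, Polynomial.coe_evalRingHom,
      Polynomial.eval_sub, smul_eq_mul, Polynomial.eval_mul, Polynomial.eval_X, Polynomial.eval_C]
    split_ifs <;> simp
  have hrow : LinearIndependent K (fun a => (1 + ε • Y) a) :=
    Matrix.linearIndependent_rows_of_det_ne_zero hdet
  apply LinearIndependent.of_comp g
  have : (g ∘ fun a => x a + ε • y a) = fun a => (1 + ε • Y) a := by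
    funext a
    simp only [Function.comp, map_add, map_smul, hgx]
    ext b
    simp [hY, Matrix.one_apply, Pi.single_apply, eq_comm]
  rw [this]
  exact hrow

/-- Semicontinuity of the rank when one entry moves. -/
lemma exists_update [Infinite K] [FiniteDimensional K N] {j : ℕ} (B : V →ₗ[K] E →ₗ[K] N)
    (Q : Fin j → E) (l : Fin j) (R : E) :
    ∃ ε : K, ε ≠ 0 ∧
      finrank K (US B Q) ≤ finrank K (US B (Function.update Q l (Q l + ε • R))) := by
  classical
  obtain ⟨f, hf, hspan, hli⟩ := Submodule.exists_fun_fin_finrank_span_eq K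
    {z : N | ∃ v i, z = B v (Q i)}
  choose v i hvi using hf
  obtain ⟨ε, hε, hli'⟩ := exists_eps f (fun a => if i a = l then B (v a) R else 0) hli
  refine ⟨ε, hε, ?_⟩
  set Q' := Function.update Q l (Q l + ε • R) with hQ'
  have hmem : ∀ a, f a + ε • (if i a = l then B (v a) R else 0) ∈ US B Q' := by
    intro a
    have h1 := mem_US B Q' (v a) (i a)
    by_cases hia : i a = l
    · rw [if_pos hia]
      rw [hQ', hia, Function.update_self, map_add, map_smul] at h1
      rw [hvi a, hia]
      exact h1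
    · rw [if_neg hia, smul_zero, add_zero, hvi a]
      rw [hQ', Function.update_of_ne hia] at h1
      exact h1
  have h2 : LinearIndependent K (fun a => (⟨_, hmem a⟩ : US B Q')) := by
    apply LinearIndependent.of_comp (US B Q').subtype
    exact hli'
  have h3 := h2.fintype_card_le_finrank
  rwa [Fintype.card_fin] at h3

/-- Adding a vector raises the dimension. -/
lemma finrank_succ_le [FiniteDimensional K N] {U W : Submodule K N} (h : U ≤ W) {z : N}
    (hz : z ∈ W) (hz' : z ∉ U) : finrank K U + 1 ≤ finrank K W := by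
  have : U < W := lt_of_le_of_ne h (by rintro rfl; exact hz' hz)
  exact Submodule.finrank_lt_finrank_of_lt this

/-- The decomposition along a functional. -/
lemma decomp (B : V →ₗ[K] E →ₗ[K] N) (φ : V →ₗ[K] K) {v₀ : V} (hv₀ : φ v₀ ≠ 0)
    (U : Submodule K N) (R : E) (h1 : ∀ h, φ h = 0 → B h R ∈ U) (h2 : B v₀ R ∈ U) (v : V) :
    B v R ∈ U := by
  have h3 : B v R = B (v - (φ v / φ v₀) • v₀) R + (φ v / φ v₀) • B v₀ R := by
    rw [map_sub, map_smul, LinearMap.sub_apply, LinearMap.smul_apply]
    abel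
  rw [h3]
  refine U.add_mem (h1 _ ?_) (U.smul_mem _ h2)
  rw [map_sub, map_smul, smul_eq_mul, div_mul_cancel₀ _ hv₀, sub_self]

/-- Step (C). -/
theorem linC [Infinite K] [FiniteDimensional K N] (B : V →ₗ[K] E →ₗ[K] N) (n δ : ℕ)
    (hδ1 : 1 ≤ δ) (hN : finrank K N + 1 = n)
    (hspan : ∀ U : Submodule K N, (∀ v e, B v e ∈ U) → U = ⊤)
    (hH : ∀ φ : V →ₗ[K] K, φ ≠ 0 →
      finrank K N ≤ δ + finrank K (Submodule.span K {z | ∃ v e, φ v = 0 ∧ z = B v e}))
    (hδ : n ≤ 2 * δ) :
    ∃ Q : Fin (δ - 1) → E, n ≤ finrank K (US B Q) + 2 := by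
  classical
  by_contra hcon
  push Not at hcon
  -- the maximal ranks
  have hbd : ∀ (j : ℕ) (Q : Fin j → E), finrank K (US B Q) ≤ n := by
    intro j Q
    have := Submodule.finrank_le (US B Q)
    omega
  set P : ℕ → ℕ → Prop := fun j r => ∃ Q : Fin j → E, r ≤ finrank K (US B Q) with hP
  set r : ℕ → ℕ := fun j => Nat.findGreatest (P j) n with hr
  have hrspec : ∀ j, P j (r j) := by
    intro j
    exact Nat.findGreatest_spec (P := P j) (Nat.zero_le n) ⟨fun _ => 0, Nat.zero_le _⟩
  have hrmax : ∀ (j : ℕ) (Q : Fin j → E), finrank K (US B Q) ≤ r j := by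
    intro j Q
    exact Nat.le_findGreatest (hbd j Q) ⟨Q, le_rfl⟩
  have hrstep : ∀ j, r j ≤ r (j + 1) := by
    intro j
    obtain ⟨Q, hQ⟩ := hrspec j
    have h1 := Submodule.finrank_mono (US_snoc_left B Q 0)
    exact hQ.trans (h1.trans (hrmax _ _))
  have hrmono : Monotone r := monotone_nat_of_le_succ hrstep
  have hlast : r (δ - 1) + 3 ≤ n := by
    obtain ⟨Q, hQ⟩ := hrspec (δ - 1)
    have := hcon Q
    omega
  obtain ⟨j, hj, hrj⟩ : ∃ j, j + 1 ≤ δ - 1 ∧ r (j + 1) ≤ r j + 1 := by
    by_contra hc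
    push Not at hc
    have h1 : ∀ j, j ≤ δ - 1 → 2 * j ≤ r j := by
      intro j
      induction j with
      | zero => intro _; omega
      | succ j ih =>
        intro hj
        have h2 := ih (by omega)
        have h3 := hc j hj
        omega
    have h2 := h1 (δ - 1) le_rfl
    omega
  have hj3 : r (j + 1) + 3 ≤ n := by
    have := hrmono hj
    omega
  -- the common kernel
  have key : ∀ Q : Fin j → E, r j ≤ finrank K (US B Q) →
      ∃ φ : V →ₗ[K] K, φ ≠ 0 ∧ ∀ h, φ h = 0 → ∀ R, B h R ∈ US B Q := by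
    intro Q hQ
    set U := US B Q with hU
    set T : V →ₗ[K] E →ₗ[K] (N ⧸ U) := B.compr₂ U.mkQ with hT
    have hTapp : ∀ v R, T v R = U.mkQ (B v R) := fun v R => rfl
    have hT0 : ∀ v R, T v R = 0 ↔ B v R ∈ U := by
      intro v R
      rw [hTapp, Submodule.mkQ_apply, Submodule.Quotient.mk_eq_zero]
    have hA : ∀ (R : E) (v w : V), ∃ s t : K, (s ≠ 0 ∨ t ≠ 0) ∧ s • T v R + t • T w R = 0 := by
      intro R v w
      by_cases hv : B v R ∈ U
      · refine ⟨1, 0, Or.inl one_ne_zero, ?_⟩
        rw [zero_smul, add_zero, one_smul]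
        exact (hT0 v R).2 hv
      · have h1 : U ≤ U ⊔ Submodule.span K {B v R} := le_sup_left
        have h2 : B v R ∈ U ⊔ Submodule.span K {B v R} :=
          Submodule.mem_sup_right (Submodule.mem_span_singleton_self _)
        have h3 := finrank_succ_le h1 h2 hv
        have h4 : B w R ∈ U ⊔ Submodule.span K {B v R} := by
          by_contra hw
          have h5 : U ⊔ Submodule.span K {B v R} ≤ US B (Fin.snoc Q R : Fin (j + 1) → E) := by
            refine sup_le (US_snoc_left B Q R) ?_
            rw [Submodule.span_le]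
            rintro _ rfl
            exact mem_US_snoc_last B Q R v
          have h6 := finrank_succ_le h5 (mem_US_snoc_last B Q R w) hw
          have h7 := hrmax (j + 1) (Fin.snoc Q R : Fin (j + 1) → E)
          omega
        obtain ⟨u, hu, z, hz, huz⟩ := Submodule.mem_sup.1 h4
        obtain ⟨c, rfl⟩ := Submodule.mem_span_singleton.1 hz
        refine ⟨-c, 1, Or.inr one_ne_zero, ?_⟩
        rw [hTapp, hTapp, one_smul, ← map_smul, ← map_add, ← huz, Submodule.mkQ_apply,
          Submodule.Quotient.mk_eq_zero]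
        have : -c • B v R + (u + c • B v R) = u := by
          rw [neg_smul]
          abel
        rw [this]
        exact hu
    have hB : ¬ ∃ m : N ⧸ U, ∀ v R, ∃ c : K, T v R = c • m := by
      rintro ⟨m, hm⟩
      obtain ⟨m', rfl⟩ := U.mkQ_surjective m
      have h1 : U ⊔ Submodule.span K {m'} = ⊤ := by
        apply hspan
        intro v e
        obtain ⟨c, hc⟩ := hm v e
        rw [hTapp, ← map_smul, ← sub_eq_zero, ← map_sub, Submodule.mkQ_apply,
          Submodule.Quotient.mk_eq_zero] at hc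
        have : B v e = (B v e - c • m') + c • m' := by abel
        rw [this]
        exact Submodule.add_mem_sup hc (Submodule.smul_mem _ _ (Submodule.mem_span_singleton_self _))
      have h2 : finrank K (U ⊔ Submodule.span K {m'} : Submodule K N) ≤
          finrank K U + finrank K (Submodule.span K {m'}) :=
        Submodule.finrank_add_le_finrank_add_finrank _ _
      rw [h1, finrank_top] at h2
      have h3 : finrank K (Submodule.span K {m'}) ≤ 1 := by
        have h5 := finrank_span_le_card (R := K) ({m'} : Set N)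
        simpa using h5
      have h4 := hrmax j Q
      rw [← hU] at h4
      have h5 := hrstep j
      omega
    obtain ⟨φ, hφ, h⟩ := common_kernel T hA hB
    exact ⟨φ, hφ, fun h' hh' R => (hT0 h' R).1 (h h' hh' R)⟩
  obtain ⟨Q, hQ⟩ := hrspec j
  have hQeq : finrank K (US B Q) = r j := le_antisymm (hrmax j Q) hQ
  obtain ⟨φ, hφ, hφU⟩ := key Q hQ
  obtain ⟨v₀, hv₀⟩ : ∃ v₀, φ v₀ ≠ 0 := by
    by_contra hc
    push Not at hc
    exact hφ (LinearMap.ext hc)
  set NH := Submodule.span K {z | ∃ v e, φ v = 0 ∧ z = B v e} with hNH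
  have hNHU : NH ≤ US B Q := by
    rw [hNH, Submodule.span_le]
    rintro _ ⟨v, e, hv, rfl⟩
    exact hφU v hv e
  have hmemNH : ∀ v, φ v = 0 → ∀ e, B v e ∈ NH := fun v hv e =>
    Submodule.subset_span ⟨v, e, hv, rfl⟩
  -- a vector outside
  have hout : ∀ (p : ℕ) (Q' : Fin p → E), NH ≤ US B Q' → p ≤ δ - 1 → ∃ R, B v₀ R ∉ US B Q' := by
    intro p Q' hQ' hp
    by_contra hc
    push Not at hc
    have h1 := hspan (US B Q') (fun v e =>
      decomp B φ hv₀ _ e (fun h hh => hQ' (hmemNH h hh e)) (hc e) v)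
    have h2 := hrmax p Q'
    rw [h1, finrank_top] at h2
    have h3 := hrmono hp
    omega
  have hdim : finrank K NH + j ≤ finrank K (US B Q) := by
    by_cases hdep : ∃ l : Fin j, B v₀ (Q l) ∈
        NH ⊔ Submodule.span K {z | ∃ i, i ≠ l ∧ z = B v₀ (Q i)}
    · exfalso
      obtain ⟨l, hl⟩ := hdep
      obtain ⟨R, hR⟩ := hout j Q hNHU (by omega)
      obtain ⟨ε, hε, hε'⟩ := exists_update B Q l R
      set Q' := Function.update Q l (Q l + ε • R) with hQ'
      obtain ⟨φ', hφ', hφU'⟩ := key Q' (by omega)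
      have hker : ∀ h, φ h = 0 → φ' h = 0 := by
        intro h hh
        by_contra hc
        have h1 : US B (Fin.snoc Q R : Fin (j + 1) → E) = ⊤ := by
          apply hspan
          intro v e
          have hQQ' : US B Q' ≤ US B (Fin.snoc Q R : Fin (j + 1) → E) := by
            apply US_le
            intro v i
            by_cases hi : i = l
            · rw [hi, hQ', Function.update_self, map_add, map_smul]
              exact Submodule.add_mem _ (US_snoc_left B Q R (mem_US B Q v l))
                (Submodule.smul_mem _ _ (mem_US_snoc_last B Q R v))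
            · rw [hQ', Function.update_of_ne hi]
              exact US_snoc_left B Q R (mem_US B Q v i)
          exact decomp B φ' hc _ e (fun h' hh' => hQQ' (hφU' h' hh' e))
            (US_snoc_left B Q R (hφU h hh e)) v
        have h2 := hrmax (j + 1) (Fin.snoc Q R : Fin (j + 1) → E)
        rw [h1, finrank_top] at h2
        omega
      have hNH' : NH ≤ US B Q' := by
        rw [hNH, Submodule.span_le]
        rintro _ ⟨v, e, hv, rfl⟩
        exact hφU' v (hker v hv) e
      have h1 : ∀ i, i ≠ l → B v₀ (Q i) ∈ US B Q' := by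
        intro i hi
        have := mem_US B Q' v₀ i
        rwa [hQ', Function.update_of_ne hi] at this
      have h2 : B v₀ (Q l) ∈ US B Q' := by
        have h3 : NH ⊔ Submodule.span K {z | ∃ i, i ≠ l ∧ z = B v₀ (Q i)} ≤ US B Q' := by
          refine sup_le hNH' ?_
          rw [Submodule.span_le]
          rintro _ ⟨i, hi, rfl⟩
          exact h1 i hi
        exact h3 hl
      have h3 : B v₀ R ∈ US B Q' := by
        have h4 := mem_US B Q' v₀ l
        rw [hQ', Function.update_self, map_add, map_smul] at h4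
        have h5 : ε • B v₀ R ∈ US B Q' := by
          have h6 := (US B Q').sub_mem h4 h2
          rwa [add_sub_cancel_left] at h6
        have h7 := (US B Q').smul_mem ε⁻¹ h5
        rwa [smul_smul, inv_mul_cancel₀ hε, one_smul] at h7
      have h4 : US B Q ≤ US B Q' := by
        apply US_le
        intro v i
        refine decomp B φ hv₀ _ (Q i) (fun h hh => hNH' (hmemNH h hh _)) ?_ v
        by_cases hi : i = l
        · rw [hi]
          exact h2
        · exact h1 i hi
      have h5 := finrank_succ_le h4 h3 hR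
      have h6 := hrmax j Q'
      omega
    · push Not at hdep
      have h1 : ∀ p, p ≤ j → finrank K NH + p ≤ finrank K
          (NH ⊔ Submodule.span K {z | ∃ i : Fin j, (i : ℕ) < p ∧ z = B v₀ (Q i)} :
            Submodule K N) := by
        intro p
        induction p with
        | zero =>
          intro _
          rw [add_zero]
          exact Submodule.finrank_mono le_sup_left
        | succ p ih =>
          intro hp
          have h2 := ih (by omega)
          have h3 : (NH ⊔ Submodule.span K {z | ∃ i : Fin j, (i : ℕ) < p ∧ z = B v₀ (Q i)} :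
              Submodule K N) ≤
              NH ⊔ Submodule.span K {z | ∃ i : Fin j, (i : ℕ) < p + 1 ∧ z = B v₀ (Q i)} := by
            refine sup_le_sup_left (Submodule.span_mono ?_) _
            rintro _ ⟨i, hi, rfl⟩
            exact ⟨i, by omega, rfl⟩
          have h4 : B v₀ (Q ⟨p, by omega⟩) ∈
              NH ⊔ Submodule.span K {z | ∃ i : Fin j, (i : ℕ) < p + 1 ∧ z = B v₀ (Q i)} :=
            Submodule.mem_sup_right (Submodule.subset_span ⟨⟨p, by omega⟩, by simp, rfl⟩)
          have h5 : B v₀ (Q ⟨p, by omega⟩) ∉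
              NH ⊔ Submodule.span K {z | ∃ i : Fin j, (i : ℕ) < p ∧ z = B v₀ (Q i)} := by
            intro h6
            apply hdep ⟨p, by omega⟩
            have h7 : (NH ⊔ Submodule.span K {z | ∃ i : Fin j, (i : ℕ) < p ∧ z = B v₀ (Q i)} :
                Submodule K N) ≤
                NH ⊔ Submodule.span K {z | ∃ i : Fin j, i ≠ ⟨p, by omega⟩ ∧ z = B v₀ (Q i)} := by
              refine sup_le_sup_left (Submodule.span_mono ?_) _
              rintro _ ⟨i, hi, rfl⟩
              refine ⟨i, ?_, rfl⟩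
              rintro rfl
              simp at hi
            exact h7 h6
          have h6 := finrank_succ_le h3 h4 h5
          omega
      refine (h1 j le_rfl).trans (Submodule.finrank_mono ?_)
      refine sup_le hNHU ?_
      rw [Submodule.span_le]
      rintro _ ⟨i, _, rfl⟩
      exact mem_US B Q v₀ i
  -- extension
  have hext : ∀ p, j ≤ p → p ≤ δ - 1 → ∃ Q' : Fin p → E, NH ≤ US B Q' ∧
      finrank K NH + p ≤ finrank K (US B Q') := by
    intro p hjp
    induction p, hjp using Nat.le_induction with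
    | base => intro _; exact ⟨Q, hNHU, hdim⟩
    | succ p hp ih =>
      intro hp1
      obtain ⟨Q', h1, h2⟩ := ih (by omega)
      obtain ⟨R, hR⟩ := hout p Q' h1 (by omega)
      refine ⟨(Fin.snoc Q' R : Fin (p + 1) → E), h1.trans (US_snoc_left B Q' R), ?_⟩
      have h3 := finrank_succ_le (US_snoc_left B Q' R) (mem_US_snoc_last B Q' R v₀) hR
      omega
  obtain ⟨Q', h1, h2⟩ := hext (δ - 1) (by omega) le_rfl
  have h3 := hcon Q'
  have h4 := hH φ hφ
  rw [← hNH] at h4
  omega

end

end Pool.Agent.H92.VGH
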